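import Pool.Agent.Helper42.PQ.Spec
import Pool.Agent.Helper42.PQ.Base

set_option autoImplicit false

namespace Pool.Agent.Helper50.PQ.LA

open Finset Pool.Agent.Helper42.PQ
open Pool.Agent.Helper46.PV (sg_insert sg_union sg_mono sg_sdiff sg_erase slide exists_top)

variable {ι : Type} [DecidableEq ι] (u : ι → ℕ)

lemma top_le {D G A : Finset ι} (hA : A ⊆ D)
    (htop : ∀ g ∈ G, ∀ x ∈ D \ G, u x ≤ u g) (hc : A.card ≤ G.card) : sg u A ≤ sg u G := by
  have h1 : sg u (A \ G) ≤ sg u (G \ A) := by
    apply Pool.Agent.Helper46.PV.cmp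
    · have e1 := Finset.card_sdiff_add_card_inter A G
      have e2 := Finset.card_sdiff_add_card_inter G A
      rw [Finset.inter_comm G A] at e2
      omega
    · intro a ha b hb
      rw [Finset.mem_sdiff] at ha hb
      exact htop b hb.1 a (Finset.mem_sdiff.mpr ⟨hA ha.1, ha.2⟩)
  have e1 : sg u (A \ G) + sg u (A ∩ G) = sg u A := by
    have := sg_sdiff u (Finset.inter_subset_left (s₁ := A) (s₂ := G))
    rwa [Finset.sdiff_inter_self_left] at this
  have e2 : sg u (G \ A) + sg u (G ∩ A) = sg u G := by
    have := sg_sdiff u (Finset.inter_subset_left (s₁ := G) (s₂ := A))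
    rwa [Finset.sdiff_inter_self_left] at this
  rw [Finset.inter_comm G A] at e2
  omega

lemma blocks {r c : ℕ} : ∀ (j : ℕ) (F : Finset ι), F.card ≤ j * r →
    (∀ A ⊆ F, A.card ≤ r → sg u A ≤ c) → sg u F ≤ j * c := by
  intro j
  induction j with
  | zero =>
    intro F hF _
    have : F = ∅ := by
      rw [← Finset.card_eq_zero]; omega
    subst this
    simp [sg]
  | succ j ih =>
    intro F hF h
    rcases le_or_gt F.card r with hr | hr
    · have := h F (Finset.Subset.refl _) hr
      calc sg u F ≤ c := this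
        _ ≤ (j + 1) * c := by nlinarith
    · obtain ⟨A, hAF, hAc⟩ := Finset.exists_subset_card_eq hr.le
      have h1 := h A hAF hAc.le
      have h2 : (F \ A).card ≤ j * r := by
        rw [Finset.card_sdiff_of_subset hAF, hAc]
        have : (j + 1) * r = j * r + r := by ring
        omega
      have h3 := ih (F \ A) h2 (fun B hB hBc => h B (hB.trans Finset.sdiff_subset) hBc)
      have h4 := sg_sdiff u hAF
      have : (j + 1) * c = j * c + c := by ring
      omega

lemma hblocks {r c : ℕ} : ∀ (j : ℕ) (F : Finset ι), F.card = j * r →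
    (∀ A ⊆ F, A.card = r → c ≤ sg u A) → j * c ≤ sg u F := by
  intro j
  induction j with
  | zero =>
    intro F hF _
    simp
  | succ j ih =>
    intro F hF h
    have e : (j + 1) * r = j * r + r := by ring
    have hr : r ≤ F.card := by omega
    obtain ⟨A, hAF, hAc⟩ := Finset.exists_subset_card_eq hr
    have h1 := h A hAF hAc
    have h2 : (F \ A).card = j * r := by
      rw [Finset.card_sdiff_of_subset hAF, hAc]
      omega
    have h3 := ih (F \ A) h2 (fun B hB hBc => h B (hB.trans Finset.sdiff_subset) hBc)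
    have h4 := sg_sdiff u hAF
    have : (j + 1) * c = j * c + c := by ring
    omega

theorem main : S_LA := by
  intro ι _ _ u r d k D o hr hk hD hsum ho hmax P x hPx hoP hxo
  obtain ⟨hPD, hxD, hPc, hxP, hPle, hPge⟩ := hPx
  simp only at hPD hxD hPc hxP hPle hPge
  have hNo : Nd u r d D (P, o) := by
    refine ⟨hPD, ho, hPc, hoP, hPle, ?_⟩
    have := hmax x hxD
    simp only
    omega
  have hNx : Nd u r d D (P, x) := ⟨hPD, hxD, hPc, hxP, hPle, hPge⟩
  -- the rest
  obtain ⟨k', rfl⟩ : ∃ k', k = k' + 4 := ⟨k - 4, by omega⟩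
  set Q : Finset ι := insert o (insert x P) with hQ
  have hQD : Q ⊆ D := by
    intro i hi
    rw [hQ, Finset.mem_insert, Finset.mem_insert] at hi
    rcases hi with rfl | rfl | hi
    · exact ho
    · exact hxD
    · exact hPD hi
  have hoQ : o ∉ insert x P := by
    rw [Finset.mem_insert, not_or]
    exact ⟨fun h => hxo h.symm, hoP⟩
  have hQc : Q.card = r + 2 := by
    rw [hQ, Finset.card_insert_of_notMem hoQ, Finset.card_insert_of_notMem hxP, hPc]
  have hQs : sg u Q = u o + (u x + sg u P) := by
    rw [hQ, sg_insert u hoQ, sg_insert u hxP]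
  set E : Finset ι := D \ Q with hE
  have hEc : E.card + 1 = (k' + 3) * r := by
    rw [hE, Finset.card_sdiff_of_subset hQD, hD, hQc]
    have : (k' + 4) * r = (k' + 3) * r + r := by ring
    have h2 : (k' + 3) * r = (k' + 2) * r + r := by ring
    omega
  have hEs : sg u E + sg u Q = (k' + 4) * d := by rw [hE, sg_sdiff u hQD, hsum]
  have hED : E ⊆ D := Finset.sdiff_subset
  have hEx : ∀ R ⊆ E, x ∉ R := by
    intro R hR hx
    have := hR hx
    rw [hE, Finset.mem_sdiff] at this
    exact this.2 (by rw [hQ]; simp)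
  have hEo : ∀ R ⊆ E, o ∉ R := by
    intro R hR hx
    have := hR hx
    rw [hE, Finset.mem_sdiff] at this
    exact this.2 (by rw [hQ]; simp)
  have hEP : ∀ R ⊆ E, Disjoint P R := by
    intro R hR
    rw [Finset.disjoint_left]
    intro i hi hi'
    have := hR hi'
    rw [hE, Finset.mem_sdiff] at this
    exact this.2 (by rw [hQ]; simp [hi])
  -- case distinction
  by_cases hS : ∃ S ⊆ E, S.card = r + 1 ∧ d ≤ sg u S
  · by_cases hR : ∃ R ⊆ E, R.card = r ∧ sg u R ≤ d
    · -- a node inside E
      obtain ⟨R, hRE, z, hzE, hzR, hRc, hRle, hRge⟩ := slide u E r d hS hR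
      have hzD : z ∈ D := hED hzE
      have hzP : z ∉ P := fun h => (Finset.disjoint_left.mp (hEP E (Finset.Subset.refl _))) h hzE
      have hzx : z ≠ x := fun h => hEx E (Finset.Subset.refl _) (h ▸ hzE)
      have hzo : z ≠ o := fun h => hEo E (Finset.Subset.refl _) (h ▸ hzE)
      have hNR : Nd u r d D (R, z) := ⟨hRE.trans hED, hzD, hRc, hzR, hRle, hRge⟩
      have a1 : NAd u r d D (P, x) (R, z) :=
        ⟨hNx, hNR, hEP R hRE, hEx R hRE, hzP, fun h => absurd h.symm hzx⟩
      have a2 : NAd u r d D (R, z) (P, o) :=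
        ⟨hNR, hNo, (hEP R hRE).symm, hzP, hEo R hRE, fun h => absurd h hzo⟩
      exact (NCn.of_adj a1).trans (NCn.of_adj a2)
    · -- heavy
      exfalso
      push Not at hR
      have hr1 : r - 1 ≤ E.card := by
        have : (k' + 3) * r = (k' + 2) * r + r := by ring
        omega
      obtain ⟨A, hAE, hAc⟩ := Finset.exists_subset_card_eq hr1
      have hc2 : (E \ A).card = (k' + 2) * r := by
        rw [Finset.card_sdiff_of_subset hAE, hAc]
        have : (k' + 3) * r = (k' + 2) * r + r := by ring
        omega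
      have hne : (E \ A).Nonempty := by
        rw [← Finset.card_pos, hc2]; positivity
      obtain ⟨e, he⟩ := hne
      rw [Finset.mem_sdiff] at he
      have h1 : d < sg u (insert e A) := by
        apply hR
        · intro i hi
          rw [Finset.mem_insert] at hi
          rcases hi with rfl | hi
          · exact he.1
          · exact hAE hi
        · rw [Finset.card_insert_of_notMem he.2, hAc]; omega
      rw [sg_insert u he.2] at h1
      have h2 := hmax e (hED he.1)
      have h3 := hblocks u (r := r) (c := d + 1) (k' + 2) (E \ A) hc2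
        (fun B hB hBc => hR B (hB.trans Finset.sdiff_subset) hBc)
      have h4 := sg_sdiff u hAE
      have e1 : (k' + 2) * (d + 1) = (k' + 2) * d + (k' + 2) := by ring
      have e2 : (k' + 4) * d = (k' + 2) * d + d + d := by ring
      omega
  · -- light
    push Not at hS
    have hr0 : r ≤ E.card := by
      have : (k' + 3) * r = (k' + 2) * r + r := by ring
      have : (k' + 2) * r = (k' + 1) * r + r := by ring
      omega
    obtain ⟨R1, hR1E, hR1c, hR1top⟩ := exists_top u E r hr0
    set F : Finset ι := E \ R1 with hF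
    have hFc : F.card + 1 = (k' + 2) * r := by
      rw [hF, Finset.card_sdiff_of_subset hR1E, hR1c]
      have : (k' + 3) * r = (k' + 2) * r + r := by ring
      omega
    have hr1 : r ≤ F.card := by
      have : (k' + 2) * r = k' * r + r + r := by ring
      omega
    obtain ⟨R2, hR2F, hR2c, hR2top⟩ := exists_top u F r hr1
    have hFE : F ⊆ E := Finset.sdiff_subset
    have hR2E : R2 ⊆ E := hR2F.trans hFE
    have hFs : sg u F + sg u R1 = sg u E := by rw [hF, sg_sdiff u hR1E]
    have hR1lt : sg u R1 < d := by
      have hne : F.Nonempty := by rw [← Finset.card_pos]; omega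
      obtain ⟨e, he⟩ := hne
      have he' := he
      rw [hF, Finset.mem_sdiff] at he'
      have h1 := hS (insert e R1) (by
        intro i hi
        rw [Finset.mem_insert] at hi
        rcases hi with rfl | hi
        · exact he'.1
        · exact hR1E hi) (by rw [Finset.card_insert_of_notMem he'.2, hR1c])
      rw [sg_insert u he'.2] at h1
      omega
    have hR2R1 : sg u R2 ≤ sg u R1 := top_le u hR2E hR1top (by rw [hR2c, hR1c])
    by_cases hcase : u x + sg u F ≤ (k' + 2) * d
    · have h2d : 2 * d ≤ sg u P + sg u R1 + u o := by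
        have e2 : (k' + 4) * d = (k' + 2) * d + 2 * d := by ring
        omega
      have hNR : Nd u r d D (R1, o) := by
        refine ⟨hR1E.trans hED, ho, hR1c, hEo R1 hR1E, hR1lt.le, ?_⟩
        simp only
        omega
      have a1 : NAd u r d D (P, x) (R1, o) :=
        ⟨hNx, hNR, hEP R1 hR1E, hEx R1 hR1E, hoP, fun h => absurd h hxo⟩
      have a2 : NAd u r d D (R1, o) (P, o) := by
        refine ⟨hNR, hNo, (hEP R1 hR1E).symm, hoP, hEo R1 hR1E, fun _ => ?_⟩
        simp only
        omega
      exact (NCn.of_adj a1).trans (NCn.of_adj a2)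
    · have hF1 : sg u F ≤ (k' + 2) * sg u R1 :=
        blocks u (r := r) (k' + 2) F (by omega)
          (fun A hA hAc => top_le u (hA.trans hFE) hR1top (by omega))
      have hR1x : d ≤ sg u R1 + u x := by
        by_contra hc
        push Not at hc hcase
        have h1 : u x + sg u F ≤ (k' + 2) * (sg u R1 + u x) := by nlinarith
        have h2 : (k' + 2) * (sg u R1 + u x) ≤ (k' + 2) * d :=
          Nat.mul_le_mul_left _ hc.le
        omega
      have hF2 : sg u F ≤ (k' + 2) * sg u R2 :=
        blocks u (r := r) (k' + 2) F (by omega)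
          (fun A hA hAc => top_le u hA hR2top (by omega))
      have hR2o : d ≤ sg u R2 + u o := by
        by_contra hc
        push Not at hc
        have hxle := hmax x hxD
        have h1 : (k' + 2) * sg u R2 + (k' + 2) * u o ≤ (k' + 2) * d := by
          have : (k' + 2) * (sg u R2 + u o) ≤ (k' + 2) * d := Nat.mul_le_mul_left _ hc.le
          linarith [mul_add (k' + 2) (sg u R2) (u o)]
        have h2 : 2 * u o ≤ (k' + 2) * u o := Nat.mul_le_mul_right _ (by omega)
        have e2 : (k' + 4) * d = (k' + 2) * d + 2 * d := by ring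
        omega
      have hN1 : Nd u r d D (R1, x) :=
        ⟨hR1E.trans hED, hxD, hR1c, hEx R1 hR1E, hR1lt.le, hR1x⟩
      have hN2 : Nd u r d D (R2, o) :=
        ⟨hR2E.trans hED, ho, hR2c, hEo R2 hR2E, (hR2R1.trans hR1lt.le), hR2o⟩
      have hd12 : Disjoint R2 R1 := by
        rw [Finset.disjoint_left]
        intro i hi hi'
        have := hR2F hi
        rw [hF, Finset.mem_sdiff] at this
        exact this.2 hi'
      have a1 : NAd u r d D (P, x) (R2, o) :=
        ⟨hNx, hN2, hEP R2 hR2E, hEx R2 hR2E, hoP, fun h => absurd h hxo⟩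
      have a2 : NAd u r d D (R2, o) (R1, x) :=
        ⟨hN2, hN1, hd12, hEo R1 hR1E, hEx R2 hR2E, fun h => absurd h.symm hxo⟩
      have a3 : NAd u r d D (R1, x) (P, o) :=
        ⟨hN1, hNo, (hEP R1 hR1E).symm, hxP, hEo R1 hR1E, fun h => absurd h hxo⟩
      exact ((NCn.of_adj a1).trans (NCn.of_adj a2)).trans (NCn.of_adj a3)

end Pool.Agent.Helper50.PQ.LA
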